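import Pool.Agent.Work.MP_94c317_gt.Key

set_option autoImplicit false
open Set Topology TopologicalSpace Filter Cardinal

namespace Pool.Agent.MP94c317

universe u

variable {X : Type u} [TopologicalSpace X]

theorem mk_iUnion_nat_le {Y : Type u} (κ : Cardinal.{u}) (hκ : ℵ₀ ≤ κ) (f : ℕ → Set Y)
    (h : ∀ n, #(f n) ≤ κ) : #(⋃ n, f n) ≤ κ := by
  have h3 := mk_iUnion_le_sum_mk_lift (f := f)
  have h4 : lift.{0} #(⋃ n : ℕ, f n) ≤ Cardinal.sum (fun _ : ℕ => κ) :=
    h3.trans (Cardinal.sum_le_sum _ _ h)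
  rw [lift_id', sum_const] at h4
  refine h4.trans ?_
  rw [mk_nat, lift_aleph0]
  exact mul_le_of_le hκ hκ (by simp)

/-- A space with a sigma-disjoint base in which every point has a neighbourhood of at most `κ`
points (`κ` infinite) is partitioned into open pieces with at most `κ` points. -/
theorem exists_pieces (hB : HasSigmaDisjointBase X) (κ : Cardinal.{u}) (hκ : ℵ₀ ≤ κ)
    (hX : ∀ x : X, ∃ U, IsOpen U ∧ x ∈ U ∧ #U ≤ κ) :
    ∃ C : X → Set X, (∀ x, IsOpen (C x)) ∧ (∀ x, x ∈ C x) ∧ (∀ x, #(C x) ≤ κ) ∧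
      ∀ x y, y ∈ C x → C y = C x := by
  classical
  obtain ⟨B, hBb, hBd⟩ := hB
  have hBo : ∀ n, ∀ W ∈ B n, IsOpen W := fun n W hW => hBb.isOpen (mem_iUnion.2 ⟨n, hW⟩)
  let R : X → X → Prop := fun x y => ∃ n, ∃ W ∈ B n, #W ≤ κ ∧ x ∈ W ∧ y ∈ W
  have hRs : ∀ x y, R x y → R y x := by
    rintro x y ⟨n, W, hW, hc, hx, hy⟩
    exact ⟨n, W, hW, hc, hy, hx⟩
  have hRo : ∀ x, IsOpen {y | R x y} := by
    intro x
    rw [isOpen_iff_mem_nhds]
    rintro y ⟨n, W, hW, hc, hx, hy⟩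
    refine Filter.mem_of_superset ((hBo n W hW).mem_nhds hy) ?_
    intro z hz
    exact ⟨n, W, hW, hc, hx, hz⟩
  have hRx : ∀ x, R x x := by
    intro x
    obtain ⟨U, hU, hxU, hc⟩ := hX x
    obtain ⟨W, hW, hxW, hWU⟩ := hBb.exists_subset_of_mem_open hxU hU
    obtain ⟨n, hn⟩ := mem_iUnion.1 hW
    exact ⟨n, W, hn, (mk_le_mk_of_subset hWU).trans hc, hxW, hxW⟩
  have hRc : ∀ x, #{y | R x y} ≤ κ := by
    intro x
    have h1 : {y | R x y} ⊆ ⋃ n : ℕ, {y | ∃ W ∈ B n, #W ≤ κ ∧ x ∈ W ∧ y ∈ W} := by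
      rintro y ⟨n, W, hW, hc, hx, hy⟩
      exact mem_iUnion.2 ⟨n, W, hW, hc, hx, hy⟩
    refine (mk_le_mk_of_subset h1).trans (mk_iUnion_nat_le κ hκ _ ?_)
    intro n
    by_cases h : ∃ W ∈ B n, #W ≤ κ ∧ x ∈ W
    · obtain ⟨W, hW, hc, hx⟩ := h
      have : {y | ∃ W ∈ B n, #W ≤ κ ∧ x ∈ W ∧ y ∈ W} ⊆ W := by
        rintro y ⟨W', hW', -, hx', hy'⟩
        have : W' = W := by
          by_contra hne
          exact Set.disjoint_left.1 (hBd n hW' hW hne) hx' hx
        subst this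
        exact hy'
      exact (mk_le_mk_of_subset this).trans hc
    · have : {y | ∃ W ∈ B n, #W ≤ κ ∧ x ∈ W ∧ y ∈ W} = ∅ := by
        rw [eq_empty_iff_forall_notMem]
        rintro y ⟨W', hW', hc, hx', hy'⟩
        exact h ⟨W', hW', hc, hx'⟩
      rw [this]
      simp
  let S : X → ℕ → Set X := fun x k => Nat.rec {x} (fun _ T => ⋃ y ∈ T, {z | R y z}) k
  have hS0 : ∀ x, S x 0 = {x} := fun x => rfl
  have hS1 : ∀ x k, S x (k + 1) = ⋃ y ∈ S x k, {z | R y z} := fun x k => rfl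
  have hSc : ∀ x k, #(↥(S x k)) ≤ κ := by
    intro x k
    induction k with
    | zero =>
      rw [hS0, mk_singleton]
      exact one_le_aleph0.trans hκ
    | succ k ih =>
      rw [hS1]
      refine (mk_biUnion_le _ _).trans (mul_le_of_le hκ ih ?_)
      exact ciSup_le' fun y => hRc _
  refine ⟨fun x => {y | Relation.ReflTransGen R x y}, ?_, ?_, ?_, ?_⟩
  · intro x
    rw [isOpen_iff_mem_nhds]
    intro y hy
    refine Filter.mem_of_superset ((hRo y).mem_nhds (hRx y)) ?_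
    intro z hz
    exact Relation.ReflTransGen.tail hy hz
  · intro x
    exact Relation.ReflTransGen.refl
  · intro x
    have : {y | Relation.ReflTransGen R x y} ⊆ ⋃ k, S x k := by
      intro y hy
      induction hy with
      | refl => exact mem_iUnion.2 ⟨0, rfl⟩
      | tail _ h ih =>
        obtain ⟨k, hk⟩ := mem_iUnion.1 ih
        exact mem_iUnion.2 ⟨k + 1, mem_biUnion hk h⟩
    exact (mk_le_mk_of_subset this).trans (mk_iUnion_nat_le κ hκ _ (hSc x))
  · intro x y hy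
    have hsymm : Relation.ReflTransGen R y x := by
      induction hy with
      | refl => exact Relation.ReflTransGen.refl
      | tail _ h ih => exact Relation.ReflTransGen.head (hRs _ _ h) ih
    ext z
    exact ⟨fun h => hy.trans h, fun h => hsymm.trans h⟩

/-- gluing over the pieces -/
theorem isGδ_of_pieces (C : X → Set X) (hCo : ∀ x, IsOpen (C x)) (hCx : ∀ x, x ∈ C x)
    (hCe : ∀ x y, y ∈ C x → C y = C x) (A : Set X)
    (h : ∀ x, ∃ s : ℕ → Set X, (∀ k, IsOpen (s k)) ∧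
      (∀ y ∈ C x, y ∈ A → ∀ᶠ k in atTop, y ∈ s k) ∧
      (∀ y ∈ C x, y ∉ A → ∀ᶠ k in atTop, y ∉ s k)) : IsGδ A := by
  classical
  choose s hs1 hs2 hs3 using h
  -- choose one representative for each piece
  have hrep : ∃ r : X → X, (∀ x, C (r x) = C x) ∧ ∀ x y, C x = C y → r x = r y := by
    refine ⟨fun x => (⟨x, rfl⟩ : ∃ z, C z = C x).choose, ?_, ?_⟩
    · intro x
      exact (⟨x, rfl⟩ : ∃ z, C z = C x).choose_spec
    · intro x y hxy
      have : (fun z => C z = C x) = fun z => C z = C y := by rw [hxy]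
      simp only [this]
  obtain ⟨r, hr1, hr2⟩ := hrep
  let T : ℕ → Set X := fun k => ⋃ x, C x ∩ s (r x) k
  have hTo : ∀ k, IsOpen (T k) := fun k => isOpen_iUnion fun x => (hCo x).inter (hs1 _ k)
  have hT : ∀ k y, y ∈ T k ↔ y ∈ s (r y) k := by
    intro k y
    constructor
    · intro hy
      obtain ⟨x, hx, hxs⟩ := mem_iUnion.1 hy
      rwa [hr2 y x (hCe x y hx)]
    · intro hy
      exact mem_iUnion.2 ⟨y, hCx y, hy⟩
  have hmem : ∀ y, y ∈ C (r y) := fun y => by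
    rw [hr1 y]
    exact hCx y
  have hA : A = ⋂ m, ⋃ k, ⋃ (_ : m ≤ k), T k := by
    ext y
    simp only [mem_iInter, mem_iUnion, exists_prop]
    constructor
    · intro hy m
      have h1 := hs2 (r y) y (hmem y) hy
      obtain ⟨k, hk, hmk⟩ := (h1.and (eventually_ge_atTop m)).exists
      exact ⟨k, hmk, (hT k y).2 hk⟩
    · intro hy
      by_contra hcon
      obtain ⟨m, hm⟩ := eventually_atTop.1 (hs3 (r y) y (hmem y) hcon)
      obtain ⟨k, hk, hyk⟩ := hy m
      exact hm k hk ((hT k y).1 hyk)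
  rw [hA]
  exact IsGδ.iInter_of_isOpen fun m => isOpen_iUnion fun k => isOpen_iUnion fun _ => hTo k

end Pool.Agent.MP94c317
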