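import Pool.Agent.Work.MP_94c317_gt.Key

set_option autoImplicit false
open Set Topology TopologicalSpace Filter
open Cardinal hiding univ

namespace Pool.Agent.MP94c317

universe u

/-- The family `F` of functions is bounded modulo finite sets. -/
def EventuallyBounded (F : Set (ℕ → ℕ)) : Prop :=
  ∃ g : ℕ → ℕ, ∀ f ∈ F, ∀ᶠ n in atTop, f n ≤ g n

/-- The bounding number `𝔟`. -/
noncomputable def boundingNumber : Cardinal.{0} :=
  sInf {κ | ∃ F : Set (ℕ → ℕ), #F = κ ∧ ¬ EventuallyBounded F}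

theorem eventuallyBounded_of_lt {F : Set (ℕ → ℕ)} (h : #F < boundingNumber) :
    EventuallyBounded F := by
  by_contra hcon
  exact notMem_of_lt_csInf' h ⟨F, rfl, hcon⟩

theorem eventuallyBounded_of_countable {F : Set (ℕ → ℕ)} (hc : F.Countable) :
    EventuallyBounded F := by
  rcases F.eq_empty_or_nonempty with rfl | hne
  · exact ⟨fun _ => 0, fun f hf => hf.elim⟩
  obtain ⟨a, ha⟩ := hc.exists_eq_range hne
  refine ⟨fun n => (Finset.range (n + 1)).sup fun i => a i n, ?_⟩
  intro f hf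
  rw [ha] at hf
  obtain ⟨i, rfl⟩ := hf
  filter_upwards [eventually_ge_atTop i] with n hn
  exact Finset.le_sup (f := fun i => a i n) (Finset.mem_range.2 (by omega))

theorem not_eventuallyBounded_univ : ¬ EventuallyBounded (univ : Set (ℕ → ℕ)) := by
  rintro ⟨g, hg⟩
  obtain ⟨n, hn⟩ := (hg (fun n => g n + 1) (mem_univ _)).exists
  omega

theorem aleph0_lt_boundingNumber : ℵ₀ < boundingNumber := by
  have hne : {κ : Cardinal.{0} | ∃ F : Set (ℕ → ℕ), #F = κ ∧ ¬ EventuallyBounded F}.Nonempty :=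
    ⟨_, univ, rfl, not_eventuallyBounded_univ⟩
  obtain ⟨F, hF, h2⟩ := csInf_mem hne
  change #F = boundingNumber at hF
  rw [← hF]
  by_contra hcon
  exact h2 (eventuallyBounded_of_countable
    (Cardinal.le_aleph0_iff_set_countable.1 (not_lt.1 hcon)))

variable {X : Type u} [TopologicalSpace X]

/-- For a sigma-relatively-discrete `T₁` space with a sigma-disjoint base there are open sets
`U p j y` around the points `y` of the pieces `L p`, decreasing in `j`, such that for each `x` and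
each `p` some `j` has `x ∉ U p j y` for all `y ≠ x` in `L p`. -/
theorem exists_levels [T1Space X] (hB : HasSigmaDisjointBase X) (hD : SigmaRelDiscrete X) :
    ∃ (L : ℕ → Set X) (U : ℕ → X → Set X), (⋃ n, L n) = univ ∧ (∀ j y, IsOpen (U j y)) ∧
      (∀ j y, y ∈ U j y) ∧ (∀ j k y, j ≤ k → U k y ⊆ U j y) ∧
      ∀ n x, ∃ j, ∀ y ∈ L n, y ≠ x → x ∉ U j y := by
  classical
  obtain ⟨B, hBb, hBd⟩ := hB
  have hBo : ∀ n, ∀ W ∈ B n, IsOpen W := fun n W hW => hBb.isOpen (mem_iUnion.2 ⟨n, hW⟩)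
  obtain ⟨L, hL, hLd⟩ := hD
  let U : ℕ → X → Set X := fun j y => {z | ∀ i ≤ j, ∀ W ∈ B i, y ∈ W → z ∈ W}
  let L' : ℕ × ℕ → Set X := fun p => {y | y ∈ L p.1 ∧ ∃ W ∈ B p.2, W ∩ L p.1 = {y}}
  have hUo : ∀ j y, IsOpen (U j y) := by
    intro j y
    have h1 : U j y = ⋂ i ∈ Iic j, {z | ∀ W ∈ B i, y ∈ W → z ∈ W} := by
      ext z
      simp [U]
    rw [h1]
    refine (finite_Iic j).isOpen_biInter fun i _ => ?_
    by_cases h : ∃ W ∈ B i, y ∈ W
    · obtain ⟨W, hW, hy⟩ := h
      have : {z | ∀ W ∈ B i, y ∈ W → z ∈ W} = W := by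
        ext z
        constructor
        · intro hz
          exact hz W hW hy
        · intro hz W' hW' hy'
          have : W' = W := by
            by_contra hne
            exact Set.disjoint_left.1 (hBd i hW' hW hne) hy' hy
          rwa [this]
      rw [this]
      exact hBo i W hW
    · have : {z | ∀ W ∈ B i, y ∈ W → z ∈ W} = univ := by
        ext z
        simp only [mem_ofPred_eq, mem_univ, iff_true]
        intro W hW hy
        exact absurd ⟨W, hW, hy⟩ h
      rw [this]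
      exact isOpen_univ
  have hmono : ∀ j k y, j ≤ k → U k y ⊆ U j y := by
    intro j k y hjk z hz i hi W hW hy
    exact hz i (hi.trans hjk) W hW hy
  have hT1 : ∀ x y : X, y ≠ x → ∃ j, x ∉ U j y := by
    intro x y hne
    obtain ⟨W, hW, hyW, hWx⟩ := hBb.exists_subset_of_mem_open (show y ∈ ({x} : Set X)ᶜ from hne)
      isOpen_compl_singleton
    obtain ⟨n, hn⟩ := mem_iUnion.1 hW
    exact ⟨n, fun h => hWx (h n le_rfl W hn hyW) rfl⟩
  refine ⟨fun n => L' n.unpair, U, ?_, hUo, fun j y i _ W _ hy => hy, hmono, ?_⟩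
  · ext y
    simp only [mem_iUnion, mem_univ, iff_true]
    have hy : y ∈ ⋃ n, L n := by rw [hL]; exact mem_univ y
    obtain ⟨n, hn⟩ := mem_iUnion.1 hy
    obtain ⟨V, hV, hVL⟩ := hLd n y hn
    have hyV : y ∈ V ∩ L n := by rw [hVL]; exact mem_singleton y
    obtain ⟨W, hW, hyW, hWV⟩ := hBb.exists_subset_of_mem_open hyV.1 hV
    obtain ⟨i, hi⟩ := mem_iUnion.1 hW
    refine ⟨Nat.pair n i, ?_⟩
    rw [Nat.unpair_pair]
    refine ⟨hn, W, hi, ?_⟩
    apply Subset.antisymm
    · rw [← hVL]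
      exact inter_subset_inter_left _ hWV
    · rintro _ rfl
      exact ⟨hyW, hn⟩
  · intro n x
    change ∃ j, ∀ y ∈ L' n.unpair, y ≠ x → x ∉ U j y
    generalize n.unpair = p
    by_cases h : ∃ y ∈ L' p, y ≠ x ∧ x ∈ U p.2 y
    · obtain ⟨y, hy, hne, hxy⟩ := h
      obtain ⟨j, hj⟩ := hT1 x y hne
      refine ⟨max p.2 j, ?_⟩
      intro y' hy' hne' hxy'
      obtain ⟨W, hW, hWL⟩ := hy.2
      obtain ⟨W', hW', hWL'⟩ := hy'.2
      have hyW : y ∈ W ∩ L p.1 := by rw [hWL]; exact mem_singleton y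
      have hyW' : y' ∈ W' ∩ L p.1 := by rw [hWL']; exact mem_singleton y'
      have h1 : x ∈ W := hxy p.2 le_rfl W hW hyW.1
      have h2 : x ∈ W' := hxy' p.2 (le_max_left _ _) W' hW' hyW'.1
      have h3 : W = W' := by
        by_contra hne
        exact Set.disjoint_left.1 (hBd p.2 hW hW' hne) h1 h2
      have h4 : y = y' := by
        rw [h3, hWL'] at hyW
        exact hyW
      subst h4
      exact hj (hmono _ _ _ (le_max_right _ _) hxy')
    · refine ⟨p.2, fun y hy hne hxy => h ⟨y, hy, hne, hxy⟩⟩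

/-- in a small set every subset is a limit of open sets -/
theorem exists_open_limit_seq_b [T1Space X] (hB : HasSigmaDisjointBase X)
    (hD : SigmaRelDiscrete X) (C : Set X) (hC : #C < lift.{u} boundingNumber) (A : Set X) :
    ∃ s : ℕ → Set X, (∀ k, IsOpen (s k)) ∧ (∀ x ∈ C, x ∈ A → ∀ᶠ k in atTop, x ∈ s k) ∧
      (∀ x ∈ C, x ∉ A → ∀ᶠ k in atTop, x ∉ s k) := by
  classical
  obtain ⟨L, U, hL, hUo, hUy, hmono, hj⟩ := exists_levels hB hD
  choose j hj using hj
  let F : Set (ℕ → ℕ) := range fun x : C => fun n => j n x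
  have hF : #F < boundingNumber := by
    have h1 := Cardinal.mk_range_le_lift (f := fun x : C => fun n => j n (x : X))
    have h2 : lift.{u} #F < lift.{u} boundingNumber := by
      refine lt_of_le_of_lt h1 ?_
      rwa [lift_id']
    exact Cardinal.lift_lt.1 h2
  obtain ⟨g, hg⟩ := eventuallyBounded_of_lt hF
  refine ⟨fun k => ⋃ n, ⋃ y ∈ A ∩ L n, U (g n + k) y, ?_, ?_, ?_⟩
  · intro k
    exact isOpen_iUnion fun n => isOpen_biUnion fun y _ => hUo _ y
  · intro x _ hxA
    refine Eventually.of_forall fun k => ?_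
    have hx : x ∈ ⋃ n, L n := by rw [hL]; exact mem_univ x
    obtain ⟨n, hn⟩ := mem_iUnion.1 hx
    exact mem_iUnion.2 ⟨n, mem_biUnion ⟨hxA, hn⟩ (hUy _ x)⟩
  · intro x hxC hxA
    obtain ⟨N, hN⟩ := eventually_atTop.1 (hg _ ⟨⟨x, hxC⟩, rfl⟩)
    filter_upwards [eventually_ge_atTop ((Finset.range N).sup fun n => j n x)] with k hk
    intro hx
    obtain ⟨n, hn⟩ := mem_iUnion.1 hx
    obtain ⟨y, hy, hxy⟩ := mem_iUnion₂.1 hn
    have hne : y ≠ x := by
      rintro rfl
      exact hxA hy.1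
    have hle : j n x ≤ g n + k := by
      by_cases hnN : N ≤ n
      · have := hN n hnN
        simp only at this
        omega
      · have : j n x ≤ (Finset.range N).sup fun n => j n x :=
          Finset.le_sup (f := fun n => j n x) (Finset.mem_range.2 (by omega))
        omega
    exact hj n x y hy.2 hne (hmono _ _ _ hle hxy)

end Pool.Agent.MP94c317
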