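import Pool.Agent.Work.MP_94c317_gt.SmallP

set_option autoImplicit false
open Set Topology TopologicalSpace Filter Cardinal

namespace Pool.Agent.MP94c317

universe u

/-- a countable family with SFIP has a pseudo-intersection -/
theorem hasPseudoIntersection_of_countable {F : Set (Set ℕ)} (hc : F.Countable) (hF : SFIP F) :
    HasPseudoIntersection F := by
  classical
  rcases F.eq_empty_or_nonempty with rfl | hne
  · exact ⟨univ, infinite_univ, fun A hA => hA.elim⟩
  obtain ⟨a, ha⟩ := hc.exists_eq_range hne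
  have hinf : ∀ k : ℕ, {j | ∀ i ≤ k, j ∈ a i}.Infinite := by
    intro k
    have := hF ((Finset.range (k + 1)).image a) (by
      intro A hA
      obtain ⟨i, -, rfl⟩ := Finset.mem_image.1 hA
      rw [ha]
      exact ⟨i, rfl⟩)
    refine this.mono ?_
    intro j hj i hi
    exact hj _ (Finset.mem_image_of_mem _ (Finset.mem_range.2 (by omega)))
  have hex : ∀ (k N : ℕ), ∃ j, N < j ∧ ∀ i ≤ k, j ∈ a i := by
    intro k N
    obtain ⟨j, hj, hN⟩ := (hinf k).exists_gt N
    exact ⟨j, hN, hj⟩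
  choose g hg1 hg2 using hex
  let m : ℕ → ℕ := fun k => Nat.rec (g 0 0) (fun k p => g (k + 1) p) k
  have hm : StrictMono m := strictMono_nat_of_lt_succ fun k => hg1 (k + 1) (m k)
  have hma : ∀ k, ∀ i ≤ k, m k ∈ a i := by
    intro k
    cases k with
    | zero => exact hg2 0 0
    | succ k => exact hg2 (k + 1) (m k)
  refine ⟨range m, infinite_range_of_injective hm.injective, ?_⟩
  intro A hA
  rw [ha] at hA
  obtain ⟨i, rfl⟩ := hA
  have : range m \ a i ⊆ m '' (Iio i) := by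
    rintro _ ⟨⟨k, rfl⟩, hk⟩
    refine ⟨k, ?_, rfl⟩
    by_contra h
    exact hk (hma k i (not_lt.1 h))
  exact ((finite_Iio i).image m).subset this

theorem exists_sfip_no_pseudo : ∃ F : Set (Set ℕ), SFIP F ∧ ¬ HasPseudoIntersection F := by
  classical
  refine ⟨{A | A ∈ hyperfilter ℕ}, ?_, ?_⟩
  · intro G hG
    have h1 : {k | ∀ A ∈ G, k ∈ A} ∈ hyperfilter ℕ := by
      have : (⋂ A ∈ G, A) ∈ (hyperfilter ℕ : Filter ℕ) := (Filter.biInter_finset_mem G).2 hG
      refine Filter.mem_of_superset this ?_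
      intro k hk A hA
      simpa using (mem_iInter₂.1 hk) A hA
    intro hfin
    exact notMem_hyperfilter_of_finite hfin h1
  · rintro ⟨J, hJ, hJF⟩
    let m : ℕ → ℕ := Nat.nth (· ∈ J)
    have hm : ∀ k, m k ∈ J := fun k => Nat.nth_mem_of_infinite hJ k
    have hmi : Function.Injective m := Nat.nth_injective hJ
    let J1 : Set ℕ := range fun k => m (2 * k)
    let J2 : Set ℕ := range fun k => m (2 * k + 1)
    have h1 : J1.Infinite := infinite_range_of_injective (fun a b h => by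
      have := hmi h
      omega)
    have h2 : J2.Infinite := infinite_range_of_injective (fun a b h => by
      have := hmi h
      omega)
    rcases (hyperfilter ℕ).mem_or_compl_mem J1 with h | h
    · have h3 := hJF J1 h
      refine h2 (h3.subset ?_)
      rintro _ ⟨k, rfl⟩
      refine ⟨hm _, ?_⟩
      rintro ⟨l, hl⟩
      have := hmi hl
      omega
    · have h3 := hJF J1ᶜ h
      refine h1 (h3.subset ?_)
      rintro _ ⟨k, rfl⟩
      exact ⟨hm _, fun hcon => hcon ⟨k, rfl⟩⟩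

theorem aleph0_lt_pseudoNumber : ℵ₀ < pseudoNumber := by
  have hne : {κ : Cardinal.{0} | ∃ F : Set (Set ℕ), #F = κ ∧ SFIP F ∧
      ¬ HasPseudoIntersection F}.Nonempty := by
    obtain ⟨F, h1, h2⟩ := exists_sfip_no_pseudo
    exact ⟨#F, F, rfl, h1, h2⟩
  obtain ⟨F, hF, h1, h2⟩ := csInf_mem hne
  change #F = pseudoNumber at hF
  rw [← hF]
  by_contra hcon
  exact h2 (hasPseudoIntersection_of_countable
    (Cardinal.le_aleph0_iff_set_countable.1 (not_lt.1 hcon)) h1)

variable {X : Type u} [TopologicalSpace X]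

/-- a small set in a `T₁` space with a sigma-disjoint base: every subset is a limit of a sequence
of open sets -/
theorem exists_open_limit_seq [T1Space X] (hB : HasSigmaDisjointBase X) (C : Set X)
    (hC : #C < lift.{u} pseudoNumber) (A : Set X) :
    ∃ s : ℕ → Set X, (∀ k, IsOpen (s k)) ∧ (∀ x ∈ C, x ∈ A → ∀ᶠ k in atTop, x ∈ s k) ∧
      (∀ x ∈ C, x ∉ A → ∀ᶠ k in atTop, x ∉ s k) := by
  classical
  obtain ⟨B, hBb, hBd⟩ := hB
  have hBo : ∀ n, ∀ W ∈ B n, IsOpen W := fun n W hW => hBb.isOpen (mem_iUnion.2 ⟨n, hW⟩)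
  -- a code for the points of `C`
  obtain ⟨c, hc⟩ : ∃ c : X → ℕ → Bool, InjOn c C := by
    have h1 : #C ≤ lift.{u} 𝔠 := hC.le.trans (Cardinal.lift_le.2 pseudoNumber_le_continuum)
    have h2 : lift.{0} #C ≤ lift.{u} #(ℕ → Bool) := by
      rw [lift_id']
      refine h1.trans ?_
      rw [Cardinal.lift_le]
      simp
    obtain ⟨f⟩ := lift_mk_le'.1 h2
    refine ⟨fun x => if h : x ∈ C then f ⟨x, h⟩ else fun _ => false, ?_⟩
    intro x hx y hy hxy
    simp only [hx, hy, dif_pos] at hxy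
    exact congrArg Subtype.val (f.injective hxy)
  -- representative of a base member
  let r : Set X → ℕ → Bool := fun W => if h : (W ∩ C).Nonempty then c h.some else fun _ => false
  let O : ℕ × ℕ × Bool → Set X := fun p =>
    ⋃₀ {W | W ∈ B p.1 ∧ r W p.2.1 = p.2.2}
  have hO : ∀ p, IsOpen (O p) := fun p => isOpen_sUnion fun W hW => hBo _ W hW.1
  have hsep : ∀ x ∈ C, ∀ y ∈ C, x ≠ y → ∃ i, x ∈ O i ∧ y ∉ O i := by
    intro x hx y hy hxy
    obtain ⟨W, hW, hxW, hWy⟩ := hBb.exists_subset_of_mem_open (show x ∈ ({y} : Set X)ᶜ from hxy)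
      isOpen_compl_singleton
    obtain ⟨n, hn⟩ := mem_iUnion.1 hW
    have hyW : y ∉ W := fun h => hWy h rfl
    by_cases hyO : ∃ W' ∈ B n, y ∈ W'
    · obtain ⟨W', hW', hyW'⟩ := hyO
      have hne : W ≠ W' := by
        rintro rfl
        exact hyW hyW'
      have hdis : Disjoint W W' := hBd n hn hW' hne
      have hW1 : (W ∩ C).Nonempty := ⟨x, hxW, hx⟩
      have hW2 : (W' ∩ C).Nonempty := ⟨y, hyW', hy⟩
      have hrne : r W ≠ r W' := by
        intro h
        simp only [r, hW1, hW2, dif_pos] at h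
        have h3 := hc hW1.some_mem.2 hW2.some_mem.2 h
        have h4 := hW1.some_mem.1
        rw [h3] at h4
        exact Set.disjoint_left.1 hdis h4 hW2.some_mem.1
      obtain ⟨k, hk⟩ := Function.ne_iff.1 hrne
      refine ⟨(n, k, r W k), ⟨W, ⟨hn, rfl⟩, hxW⟩, ?_⟩
      rintro ⟨V, ⟨hV, hVk⟩, hyV⟩
      have : V = W' := by
        by_contra hne'
        exact Set.disjoint_left.1 (hBd n hV hW' hne') hyV hyW'
      subst this
      exact hk hVk.symm
    · refine ⟨(n, 0, r W 0), ⟨W, ⟨hn, rfl⟩, hxW⟩, ?_⟩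
      rintro ⟨V, ⟨hV, -⟩, hyV⟩
      exact hyO ⟨V, hV, hyV⟩
  obtain ⟨s, hs1, hs2⟩ := exists_limit_seq O C (by rwa [lift_id']) hsep A
  refine ⟨fun k => {x | ∃ G ∈ s k, ∀ i ∈ G, x ∈ O i}, ?_, hs1, hs2⟩
  intro k
  have : {x | ∃ G ∈ s k, ∀ i ∈ G, x ∈ O i} = ⋃ G ∈ s k, ⋂ i ∈ G, O i := by
    ext x
    simp
  change IsOpen {x | ∃ G ∈ s k, ∀ i ∈ G, x ∈ O i}
  rw [this]
  refine isOpen_biUnion fun G _ => ?_
  exact isOpen_biInter_finset fun i _ => hO i

end Pool.Agent.MP94c317
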