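import Pool.Agent.Work.MP_94c317_gt.Rank

set_option autoImplicit false
open Set Topology TopologicalSpace
open Cardinal hiding univ

namespace Pool.Agent.MP94c317

universe u

/-- The space is a countable union of locally hereditarily Lindelöf subspaces: each point of the
`n`-th piece has an open neighbourhood whose trace on that piece has only Lindelöf subsets. -/
def SigmaLocHL (X : Type u) [TopologicalSpace X] : Prop :=
  ∃ L : ℕ → Set X, (⋃ n, L n) = univ ∧
    ∀ n, ∀ x ∈ L n, ∃ U, IsOpen U ∧ x ∈ U ∧ ∀ T, T ⊆ U ∩ L n → IsLindelof T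

/-- parent closure -/
def pcl {J : Type u} (par : J → Set J) (j : J) : ℕ → Set J
  | 0 => {j}
  | n + 1 => ⋃ k ∈ pcl par j n, par k

theorem pcl_countable {J : Type u} (par : J → Set J) (h : ∀ j, (par j).Countable) (j : J)
    (n : ℕ) : (pcl par j n).Countable := by
  induction n with
  | zero => exact countable_singleton j
  | succ n ih => exact ih.biUnion fun k _ => h k

theorem block {J : Type u} (par : J → Set J) (h : ∀ j, (par j).Countable) :
    ∃ (r : J → J → Prop) (a : J → J), WellFounded r ∧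
      (∀ j, ∀ j' ∈ par j, a j' = a j ∨ r (a j') (a j)) ∧ ∀ z, {j | a j = z}.Countable := by
  classical
  let r : J → J → Prop := WellOrderingRel
  have wf : WellFounded r := WellOrderingRel.isWellOrder.wf
  have hne : ∀ j, {z | j ∈ ⋃ n, pcl par z n}.Nonempty := fun j =>
    ⟨j, mem_iUnion.2 ⟨0, mem_singleton j⟩⟩
  let a : J → J := fun j => wf.min {z | j ∈ ⋃ n, pcl par z n} (hne j)
  have ha : ∀ j, j ∈ ⋃ n, pcl par (a j) n := fun j => wf.min_mem _ (hne j)
  refine ⟨r, a, wf, ?_, ?_⟩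
  · intro j j' hj'
    have h1 : j' ∈ ⋃ n, pcl par (a j) n := by
      obtain ⟨n, hn⟩ := mem_iUnion.1 (ha j)
      exact mem_iUnion.2 ⟨n + 1, mem_biUnion hn hj'⟩
    have h2 : ¬ r (a j) (a j') :=
      wf.not_lt_min {z | j' ∈ ⋃ n, pcl par z n} (show a j ∈ {z | j' ∈ ⋃ n, pcl par z n} from h1)
    rcases trichotomous_of r (a j') (a j) with h | h | h
    · exact Or.inr h
    · exact Or.inl h
    · exact absurd h h2
  · intro z
    refine (countable_iUnion fun n => pcl_countable par h z n).mono ?_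
    rintro j rfl
    exact ha j

variable {X : Type u} [TopologicalSpace X]

theorem alephOne [T4Space X] (hB : HasSigmaDisjointBase X) (hX : SigmaLocHL X)
    (O : Set (Set X)) (hO : ∀ U ∈ O, IsOpen U) (hOc : ⋃₀ O = univ) :
    ∃ F : Set (Set (Set X)), #F ≤ ℵ₁ ∧ (∀ D ∈ F, DiscreteFam D ∧ Refines D O) ∧
      ⋃₀ (⋃₀ F) = univ := by
  classical
  obtain ⟨B, hBb, hBd⟩ := hB
  obtain ⟨L, hLu, hL⟩ := hX
  -- basic assignment
  have h0 : ∀ x : X, ∃ (k n : ℕ) (W U : Set X), x ∈ L k ∧ W ∈ B n ∧ x ∈ W ∧ W ⊆ U ∧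
      (∀ T, T ⊆ U ∩ L k → IsLindelof T) ∧ ∃ A ∈ O, W ⊆ A := by
    intro x
    obtain ⟨k, hk⟩ : ∃ k, x ∈ L k := by
      have : x ∈ ⋃ n, L n := by rw [hLu]; trivial
      simpa using this
    obtain ⟨U, hUo, hxU, hUT⟩ := hL k x hk
    obtain ⟨A, hA, hxA⟩ : ∃ A ∈ O, x ∈ A := by
      have : x ∈ ⋃₀ O := by rw [hOc]; trivial
      simpa using this
    obtain ⟨W, hW, hxW, hWU⟩ := hBb.exists_subset_of_mem_open (show x ∈ U ∩ A from ⟨hxU, hxA⟩)
      (hUo.inter (hO A hA))
    obtain ⟨n, hn⟩ := mem_iUnion.1 hW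
    exact ⟨k, n, W, U, hk, hn, hxW, hWU.trans inter_subset_left, hUT, A, hA,
      hWU.trans inter_subset_right⟩
  choose k n V0 U hk hV0B hxV0 hV0U hUT hV0O using h0
  have hV0o : ∀ x, IsOpen (V0 x) := fun x =>
    hBb.isOpen (mem_iUnion.2 ⟨n x, hV0B x⟩)
  let c0 : X → ℕ := fun x => Nat.pair (k x) (n x)
  have hc0 : ∀ x y, c0 x = c0 y → k x = k y ∧ n x = n y := by
    intro x y h
    have h1 := congrArg Nat.unpair h
    simp only [c0, Nat.unpair_pair] at h1
    exact ⟨congrArg Prod.fst h1, congrArg Prod.snd h1⟩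
  have hdis : ∀ x y, c0 x = c0 y → V0 x ≠ V0 y → Disjoint (V0 x) (V0 y) := by
    intro x y h hne
    have hn := (hc0 x y h).2
    have hy := hV0B y
    rw [← hn] at hy
    exact hBd (n x) (hV0B x) hy hne
  -- pieces
  let J := {j : ℕ × Set X // ∃ x, (c0 x, V0 x) = j}
  let q : X → J := fun x => ⟨(c0 x, V0 x), x, rfl⟩
  have hq : ∀ x y, q x = q y ↔ c0 x = c0 y ∧ V0 x = V0 y := by
    intro x y
    constructor
    · intro h
      have h1 : (c0 x, V0 x) = (c0 y, V0 y) := congrArg Subtype.val h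
      exact ⟨congrArg Prod.fst h1, congrArg Prod.snd h1⟩
    · rintro ⟨h1, h2⟩
      exact Subtype.ext (Prod.ext h1 h2)
  have hPL : ∀ j : J, ∀ T, T ⊆ {x | q x = j} → IsLindelof T := by
    intro j T hT
    obtain ⟨x, hx⟩ := j.2
    have hjx : q x = j := Subtype.ext hx
    refine hUT x T ?_
    intro y hy
    have hyj : q y = q x := (hT hy).trans hjx.symm
    obtain ⟨h1, h2⟩ := (hq y x).1 hyj
    refine ⟨hV0U x ?_, ?_⟩
    · rw [← h2]; exact hxV0 y
    · rw [← (hc0 y x h1).1]; exact hk y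
  let par : J → Set J := fun j => {j' | (j'.1.2 ∩ {x | q x = j}).Nonempty}
  have hJo : ∀ j : J, IsOpen j.1.2 := by
    rintro ⟨_, x, rfl⟩
    exact hV0o x
  have hJd : ∀ j j' : J, j.1.1 = j'.1.1 → j ≠ j' → Disjoint j.1.2 j'.1.2 := by
    rintro ⟨_, x, rfl⟩ ⟨_, y, rfl⟩ h hne
    refine hdis x y h fun hV => hne ?_
    exact (hq x y).2 ⟨h, hV⟩
  have hpar : ∀ j, (par j).Countable := by
    intro j
    have hm : ∀ m : ℕ, (par j ∩ {j' | j'.1.1 = m}).Countable := by
      intro m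
      let T : Set X := {x | q x = j} ∩ ⋃ j' : {j' : J // j'.1.1 = m}, j'.1.1.2
      have hTL : IsLindelof T := hPL j T inter_subset_left
      obtain ⟨t, htc, ht⟩ := hTL.elim_countable_subcover
        (fun j' : {j' : J // j'.1.1 = m} => j'.1.1.2) (fun j' => hJo _) inter_subset_right
      refine (htc.image Subtype.val).mono ?_
      rintro j' ⟨⟨x, hx1, hx2⟩, hjm⟩
      have hxT : x ∈ T := ⟨hx2, mem_iUnion.2 ⟨⟨j', hjm⟩, hx1⟩⟩
      obtain ⟨j'', hj'', hx''⟩ : ∃ j'' ∈ t, x ∈ j''.1.1.2 := by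
        have := ht hxT
        rw [mem_iUnion₂] at this
        obtain ⟨j'', h1, h2⟩ := this
        exact ⟨j'', h1, h2⟩
      refine ⟨j'', hj'', ?_⟩
      by_contra hne
      exact Set.disjoint_left.1 (hJd j''.1 j' (j''.2.trans hjm.symm) hne) hx'' hx1
    refine (countable_iUnion hm).mono ?_
    intro j' hj'
    exact mem_iUnion.2 ⟨j'.1.1, hj', rfl⟩
  obtain ⟨r, a, wf, hra, hac⟩ := block par hpar
  let Y : J → Set X := fun z => {x | a (q x) = z}
  have hYL : ∀ z, IsLindelof (Y z) := by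
    intro z
    have : Y z = ⋃ j ∈ {j | a j = z}, {x | q x = j} := by
      ext x
      simp [Y]
    rw [this]
    exact (hac z).isLindelof_biUnion fun j _ => hPL j _ Subset.rfl
  have hYu : ⋃ z, Y z = univ := by
    rw [eq_univ_iff_forall]
    exact fun x => mem_iUnion.2 ⟨a (q x), rfl⟩
  -- small neighbourhoods
  have hreg : ∀ x, ∃ W, IsOpen W ∧ x ∈ W ∧ closure W ⊆ V0 x := by
    intro x
    obtain ⟨W, h1, h2, h3⟩ := normal_exists_closure_subset (isClosed_singleton (x := x)) (hV0o x)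
      (singleton_subset_iff.2 (hxV0 x))
    exact ⟨W, h1, h2 rfl, h3⟩
  choose W hWo hxW hWV using hreg
  have hseq : ∀ z, ∃ s : ℕ → X, (Y z).Nonempty → (∀ i, s i ∈ Y z) ∧ Y z ⊆ ⋃ i, W (s i) := by
    intro z
    rcases (Y z).eq_empty_or_nonempty with he | ⟨x0, hx0⟩
    · rcases isEmpty_or_nonempty X with hX | ⟨⟨x⟩⟩
      · exact (IsEmpty.false (Classical.choice (let ⟨x, _⟩ := z.2; ⟨x⟩ : Nonempty X))).elim
      · exact ⟨fun _ => x, fun h => absurd he h.ne_empty⟩
    · obtain ⟨t, htc, ht⟩ := (hYL z).elim_countable_subcover (fun x : Y z => W x.1)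
        (fun x => hWo _) (fun x hx => mem_iUnion.2 ⟨⟨x, hx⟩, hxW x⟩)
      have htne : t.Nonempty := by
        have := ht hx0
        rw [mem_iUnion₂] at this
        obtain ⟨y, hy, -⟩ := this
        exact ⟨y, hy⟩
      obtain ⟨f, hf⟩ := htc.exists_eq_range htne
      refine ⟨fun i => (f i).1, fun _ => ⟨fun i => (f i).2, ?_⟩⟩
      intro x hx
      have := ht hx
      rw [mem_iUnion₂] at this
      obtain ⟨y, hy, hxy⟩ := this
      rw [hf] at hy
      obtain ⟨i, rfl⟩ := hy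
      exact mem_iUnion.2 ⟨i, hxy⟩
  choose s hs using hseq
  let V : J × ℕ → Set X := fun p =>
    {x | (Y p.1).Nonempty ∧ x ∈ V0 (s p.1 p.2) ∧ ∀ l < p.2, x ∉ closure (W (s p.1 l))}
  have hVsub : ∀ p, V p ⊆ V0 (s p.1 p.2) := fun p x hx => hx.2.1
  have hVo : ∀ p, IsOpen (V p) := by
    intro p
    by_cases hne : (Y p.1).Nonempty
    · have : V p = V0 (s p.1 p.2) ∩ (⋃ l ∈ Finset.range p.2, closure (W (s p.1 l)))ᶜ := by
        ext x
        simp [V, hne]
      rw [this]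
      exact (hV0o _).inter
        (isClosed_biUnion_finset fun l _ => isClosed_closure).isOpen_compl
    · have : V p = ∅ := by
        ext x
        simp [V, hne]
      rw [this]
      exact isOpen_empty
  refine rank_main O r wf Y hYu hYL V hVo ?_ (fun p => Nat.pair (c0 (s p.1 p.2)) p.2) ?_ ?_ ?_ ?_
  · intro p
    obtain ⟨A, hA, hA2⟩ := hV0O (s p.1 p.2)
    exact ⟨A, hA, (hVsub p).trans hA2⟩
  · rintro ⟨z, i⟩ ⟨z', i'⟩ hcc hne
    have h1 := congrArg Nat.unpair hcc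
    simp only [Nat.unpair_pair, Prod.mk.injEq] at h1
    obtain ⟨h2, rfl⟩ := h1
    rw [Set.disjoint_left]
    intro x hx hx'
    have hz : a (q (s z i)) = z := (hs z hx.1).1 i
    have hz' : a (q (s z' i)) = z' := (hs z' hx'.1).1 i
    have hqq : q (s z i) ≠ q (s z' i) := by
      intro h
      apply hne
      rw [← hz, ← hz', h]
    exact Set.disjoint_left.1 (hJd _ _ h2 hqq) hx.2.1 hx'.2.1
  · intro z x hx
    obtain ⟨m, hm⟩ : ∃ m, x ∈ closure (W (s z m)) := by
      obtain ⟨m, hm⟩ := mem_iUnion.1 ((hs z ⟨x, hx⟩).2 hx)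
      exact ⟨m, subset_closure hm⟩
    have hex : ∃ m, x ∈ closure (W (s z m)) := ⟨m, hm⟩
    refine mem_iUnion.2 ⟨Nat.find hex, ⟨x, hx⟩, hWV _ (Nat.find_spec hex), ?_⟩
    intro l hl
    exact Nat.find_min hex hl
  · intro z x hx
    obtain ⟨m, hm⟩ := mem_iUnion.1 ((hs z ⟨x, hx⟩).2 hx)
    refine (finite_Iic m).subset ?_
    intro i hi
    by_contra hlt
    exact hi.2.2 m (not_le.1 hlt) (subset_closure hm)
  · rintro z x hx ⟨z', i⟩ hxV
    have hz' : a (q (s z' i)) = z' := (hs z' hxV.1).1 i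
    have hmem : q (s z' i) ∈ par (q x) := ⟨x, hxV.2.1, rfl⟩
    have h1 := hra (q x) _ hmem
    rw [hz', show a (q x) = z from hx] at h1
    exact h1

end Pool.Agent.MP94c317
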