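import Mathlib

set_option autoImplicit false
open Set Topology TopologicalSpace

namespace Pool.Agent.MP94c317

universe u

/-- The topology has a base which is a countable union of families of pairwise disjoint
(open) sets. -/
def HasSigmaDisjointBase (X : Type u) [TopologicalSpace X] : Prop :=
  ∃ B : ℕ → Set (Set X), IsTopologicalBasis (⋃ n, B n) ∧ ∀ n, (B n).PairwiseDisjoint id

/-- The space is a countable union of relatively discrete subspaces. -/
def SigmaRelDiscrete (X : Type u) [TopologicalSpace X] : Prop :=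
  ∃ L : ℕ → Set X, (⋃ n, L n) = univ ∧ ∀ n, ∀ x ∈ L n, ∃ U, IsOpen U ∧ U ∩ L n = {x}

/-- Every point has a neighbourhood meeting at most one member of the family. -/
def DiscreteFam {X : Type u} [TopologicalSpace X] (D : Set (Set X)) : Prop :=
  ∀ x, ∃ U ∈ 𝓝 x, {A | A ∈ D ∧ (A ∩ U).Nonempty}.Subsingleton

/-- All members are open and each lies in a member of `O`. -/
def Refines {X : Type u} [TopologicalSpace X] (D O : Set (Set X)) : Prop :=
  ∀ A ∈ D, IsOpen A ∧ ∃ U ∈ O, A ⊆ U

/-- Union of a countable union of discrete open families refining `O`. -/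
def Good {X : Type u} [TopologicalSpace X] (O : Set (Set X)) (G : Set X) : Prop :=
  ∃ D : ℕ → Set (Set X), (∀ n, DiscreteFam (D n)) ∧ (∀ n, Refines (D n) O) ∧
    G = ⋃ n, ⋃₀ D n

variable {X : Type u} [TopologicalSpace X]

theorem Good.isOpen {O : Set (Set X)} {G : Set X} (h : Good O G) : IsOpen G := by
  obtain ⟨D, -, hr, rfl⟩ := h
  exact isOpen_iUnion fun n => isOpen_sUnion fun A hA => (hr n A hA).1

theorem discreteFam_empty : DiscreteFam (∅ : Set (Set X)) := by
  intro x
  refine ⟨univ, Filter.univ_mem, ?_⟩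
  rintro A ⟨hA, -⟩
  exact hA.elim

theorem good_empty (O : Set (Set X)) : Good O (∅ : Set X) := by
  refine ⟨fun _ => ∅, fun _ => discreteFam_empty, fun _ A hA => hA.elim, ?_⟩
  simp

theorem good_iUnion_nat (O : Set (Set X)) (G : ℕ → Set X) (h : ∀ k, Good O (G k)) :
    Good O (⋃ k, G k) := by
  choose D hD hr hG using h
  refine ⟨fun n => D n.unpair.1 n.unpair.2, fun n => hD _ _, fun n => hr _ _, ?_⟩
  ext x
  simp only [mem_iUnion]
  constructor
  · rintro ⟨k, hk⟩
    rw [hG k] at hk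
    obtain ⟨j, hj⟩ := mem_iUnion.1 hk
    exact ⟨Nat.pair k j, by simpa using hj⟩
  · rintro ⟨n, hn⟩
    refine ⟨n.unpair.1, ?_⟩
    rw [hG]
    exact mem_iUnion.2 ⟨_, hn⟩

theorem good_iUnion {ι : Type*} [Countable ι] (O : Set (Set X)) (G : ι → Set X)
    (h : ∀ k, Good O (G k)) : Good O (⋃ k, G k) := by
  rcases isEmpty_or_nonempty ι with he | hne
  · simpa using good_empty O
  · obtain ⟨f, hf⟩ := exists_surjective_nat ι
    rw [← hf.iUnion_comp]
    exact good_iUnion_nat O _ fun k => h _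

theorem good_union (O : Set (Set X)) {G H : Set X} (hG : Good O G) (hH : Good O H) :
    Good O (G ∪ H) := by
  rw [union_eq_iUnion]
  exact good_iUnion O _ fun b => by cases b <;> simpa

/-- a closed set inside the union of a disjoint open family can be covered by a good set -/
theorem good_of_closed [NormalSpace X] (O : Set (Set X)) {ι : Type*} (V : ι → Set X)
    (hVo : ∀ i, IsOpen (V i)) (hVr : ∀ i, ∃ U ∈ O, V i ⊆ U)
    (S : Set ι) (hd : ∀ i ∈ S, ∀ j ∈ S, i ≠ j → Disjoint (V i) (V j))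
    (K : Set X) (hK : IsClosed K) (hKW : K ⊆ ⋃ i ∈ S, V i) : ∃ G, Good O G ∧ K ⊆ G := by
  have hWo : IsOpen (⋃ i ∈ S, V i) := isOpen_biUnion fun i _ => hVo i
  obtain ⟨P, hPo, hKP, hPW⟩ := normal_exists_closure_subset hK hWo hKW
  let D : Set (Set X) := {A | ∃ i ∈ S, A = V i ∩ P}
  have hD : DiscreteFam D := by
    intro x
    by_cases hx : x ∈ closure P
    · obtain ⟨i, hi, hxi⟩ : ∃ i ∈ S, x ∈ V i := by simpa using hPW hx
      refine ⟨V i, (hVo i).mem_nhds hxi, ?_⟩
      have key : ∀ A, A ∈ D ∧ (A ∩ V i).Nonempty → A = V i ∩ P := by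
        rintro A ⟨⟨j, hj, rfl⟩, ⟨z, hz⟩⟩
        by_contra hne
        have hij : i ≠ j := by rintro rfl; exact hne rfl
        exact (Set.disjoint_left.1 (hd i hi j hj hij)) hz.2 hz.1.1
      intro A hA A' hA'
      rw [key A hA, key A' hA']
    · refine ⟨(closure P)ᶜ, isClosed_closure.isOpen_compl.mem_nhds hx, ?_⟩
      rintro A ⟨⟨j, hj, rfl⟩, ⟨z, hz⟩⟩
      exact absurd (subset_closure hz.1.2) hz.2
  refine ⟨⋃₀ D, ⟨fun _ => D, fun _ => hD, fun _ => ?_, (iUnion_const _).symm⟩, ?_⟩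
  · rintro A ⟨i, hi, rfl⟩
    obtain ⟨U, hU, hVU⟩ := hVr i
    exact ⟨(hVo i).inter hPo, U, hU, inter_subset_left.trans hVU⟩
  · intro x hx
    obtain ⟨i, hi, hxi⟩ : ∃ i ∈ S, x ∈ V i := by simpa using hKW hx
    exact ⟨V i ∩ P, ⟨i, hi, rfl⟩, hxi, hKP hx⟩

/-- Key lemma. -/
theorem key [NormalSpace X] (O : Set (Set X)) {ι : Type*} (c : ι → ℕ) (V : ι → Set X)
    (hVo : ∀ y, IsOpen (V y)) (hVd : ∀ y z, c y = c z → V y ≠ V z → Disjoint (V y) (V z))
    (hVr : ∀ y, ∃ U ∈ O, V y ⊆ U) (N : Set ι) (R : Set X) (hR : IsClosed R)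
    (hRN : R ⊆ ⋃ y ∈ N, V y) :
    ∃ G, Good O G ∧ ∀ x ∈ R, {y | y ∈ N ∧ x ∈ V y}.Finite → x ∈ G := by
  classical
  let D : X → Set ℕ := fun x => {n | ∃ y ∈ N, c y = n ∧ x ∈ V y}
  have hstep : ∀ k : ℕ, ∃ G, Good O G ∧
      ∀ a : Finset ℕ, a.card ≤ k → ∀ x ∈ R, D x ⊆ ↑a → x ∈ G := by
    intro k
    induction k with
    | zero =>
      refine ⟨∅, good_empty O, ?_⟩
      intro a ha x hx hDx
      have : a = ∅ := Finset.card_eq_zero.1 (Nat.le_zero.1 ha)
      subst this
      obtain ⟨y, hy, hxy⟩ : ∃ y ∈ N, x ∈ V y := by simpa using hRN hx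
      have : c y ∈ D x := ⟨y, hy, rfl, hxy⟩
      simpa using hDx this
    | succ k ih =>
      obtain ⟨G, hG, hGc⟩ := ih
      have hex : ∀ a : Finset ℕ, ∃ H, Good O H ∧
          (a.card = k + 1 → ∀ x ∈ R, D x ⊆ ↑a → x ∉ G → x ∈ H) := by
        intro a
        by_cases hac : a.card = k + 1
        swap
        · exact ⟨∅, good_empty O, fun h => absurd h hac⟩
        obtain ⟨n, hn⟩ : a.Nonempty := Finset.card_pos.1 (by omega)
        let K : Set X := {x | x ∈ R ∧ D x ⊆ ↑a ∧ x ∉ G}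
        have hKc : IsClosed K := by
          have : K = R ∩ (⋃ m ∈ {m | m ∉ a}, ⋃ y ∈ {y | y ∈ N ∧ c y = m}, V y)ᶜ ∩ Gᶜ := by
            ext x
            simp only [K, D, mem_ofPred_eq, mem_inter_iff, mem_compl_iff, mem_iUnion,
              not_exists, exists_prop, not_and]
            constructor
            · rintro ⟨hxR, hxa, hxG⟩
              refine ⟨⟨hxR, ?_⟩, hxG⟩
              intro m hm y hy hxy
              exact hm (by simpa using hxa ⟨y, hy.1, hy.2, hxy⟩)
            · rintro ⟨⟨hxR, hxa⟩, hxG⟩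
              refine ⟨hxR, ?_, hxG⟩
              rintro m ⟨y, hy, hym, hxy⟩
              by_contra hm
              exact hxa m (by simpa using hm) y ⟨hy, hym⟩ hxy
          rw [this]
          refine (hR.inter ?_).inter hG.isOpen.isClosed_compl
          exact (isOpen_biUnion fun m _ => isOpen_biUnion fun y _ => hVo y).isClosed_compl
        have hKW : K ⊆ ⋃ y ∈ {y | y ∈ N ∧ c y = n}, V y := by
          rintro x ⟨hxR, hxa, hxG⟩
          by_contra hcon
          apply hxG
          refine hGc (a.erase n) ?_ x hxR ?_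
          · rw [Finset.card_erase_of_mem hn]; omega
          · intro m hm
            have hma := hxa hm
            have hmn : m ≠ n := by
              rintro rfl
              obtain ⟨y, hy, hym, hxy⟩ := hm
              exact hcon (mem_biUnion (show y ∈ {y | y ∈ N ∧ c y = m} from ⟨hy, hym⟩) hxy)
            simpa [hmn] using hma
        let S : Set (Set X) := {A | ∃ y ∈ N, c y = n ∧ A = V y}
        have hS1 : ∀ A : S, IsOpen (A : Set X) := by
          rintro ⟨A, y, -, -, rfl⟩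
          exact hVo y
        have hS2 : ∀ A : S, ∃ U ∈ O, (A : Set X) ⊆ U := by
          rintro ⟨A, y, -, -, rfl⟩
          exact hVr y
        have hS3 : ∀ A : S, ∀ B : S, A ≠ B → Disjoint (A : Set X) (B : Set X) := by
          intro A B hne
          obtain ⟨y, -, hcy, hAy⟩ := A.2
          obtain ⟨z, -, hcz, hBz⟩ := B.2
          rw [hAy, hBz]
          exact hVd y z (hcy.trans hcz.symm) fun h => hne (Subtype.ext (by rw [hAy, hBz, h]))
        have hKS : K ⊆ ⋃ A ∈ (univ : Set S), ((A : S) : Set X) := by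
          intro x hx
          obtain ⟨y, hy, hxy⟩ : ∃ y ∈ {y | y ∈ N ∧ c y = n}, x ∈ V y := by
            simpa using hKW hx
          exact mem_biUnion (mem_univ (⟨V y, y, hy.1, hy.2, rfl⟩ : S)) hxy
        obtain ⟨H, hH, hKH⟩ := good_of_closed O (fun A : S => (A : Set X)) hS1 hS2 univ
          (fun A _ B _ hAB => hS3 A B hAB) K hKc hKS
        exact ⟨H, hH, fun _ x hx hDx hxG => hKH ⟨hx, hDx, hxG⟩⟩
      choose H hH hHc using hex
      refine ⟨G ∪ ⋃ a, H a, good_union O hG (good_iUnion O H hH), ?_⟩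
      intro a ha x hx hDx
      by_cases hxG : x ∈ G
      · exact Or.inl hxG
      · rcases Nat.lt_or_ge a.card (k + 1) with h | h
        · exact absurd (hGc a (by omega) x hx hDx) hxG
        · exact Or.inr (mem_iUnion.2 ⟨a, hHc a (le_antisymm ha h) x hx hDx hxG⟩)
  choose G hG hGc using hstep
  refine ⟨⋃ k, G k, good_iUnion O G hG, ?_⟩
  intro x hx hfin
  have hDf : (D x).Finite := by
    refine (hfin.image c).subset ?_
    rintro n ⟨y, hy, hyn, hxy⟩
    exact ⟨y, ⟨hy, hxy⟩, hyn⟩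
  refine mem_iUnion.2 ⟨hDf.toFinset.card, hGc _ hDf.toFinset le_rfl x hx ?_⟩
  simp

end Pool.Agent.MP94c317
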