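import Pool.Agent.Work.MP_94c317_gt.Key

set_option autoImplicit false
open Set Topology TopologicalSpace Filter Uniformity

namespace Pool.Agent.MP94c317

universe u

section pseudo

variable {X : Type u} (D : Set (Set X)) (f : X → ℝ)

/-- `x` and `y` lie in a common member of `D` -/
def SameMem (x y : X) : Prop := ∃ B ∈ D, x ∈ B ∧ y ∈ B

open Classical in
/-- hedgehog distance -/
noncomputable def hdist (x y : X) : ℝ := if SameMem D x y then |f x - f y| else f x + f y

variable {D f}

theorem SameMem.symm {x y : X} (h : SameMem D x y) : SameMem D y x := by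
  obtain ⟨B, hB, hx, hy⟩ := h
  exact ⟨B, hB, hy, hx⟩

theorem SameMem.trans (hd : D.PairwiseDisjoint id) {x y z : X} (h : SameMem D x y)
    (h' : SameMem D y z) : SameMem D x z := by
  obtain ⟨B, hB, hx, hy⟩ := h
  obtain ⟨B', hB', hy', hz⟩ := h'
  have : B = B' := by
    by_contra hne
    exact Set.disjoint_left.1 (hd hB hB' hne) hy hy'
  subst this
  exact ⟨B, hB, hx, hz⟩

/-- the hedgehog pseudometric -/
@[reducible] noncomputable def hmetric (hd : D.PairwiseDisjoint id) (hf : ∀ x, 0 ≤ f x)
    (hf0 : ∀ x, x ∉ ⋃₀ D → f x = 0) : PseudoMetricSpace X where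
  dist := hdist D f
  dist_self x := by
    unfold hdist
    split_ifs with h
    · simp
    · have : x ∉ ⋃₀ D := by
        rintro ⟨B, hB, hx⟩
        exact h ⟨B, hB, hx, hx⟩
      simp [hf0 x this]
  dist_comm x y := by
    unfold hdist
    by_cases h : SameMem D x y
    · rw [if_pos h, if_pos h.symm, abs_sub_comm]
    · have h' : ¬ SameMem D y x := fun h' => h h'.symm
      rw [if_neg h, if_neg h', add_comm]
  dist_triangle x y z := by
    unfold hdist
    have hx := hf x
    have hy := hf y
    have hz := hf z
    have a1 := abs_le.1 (le_refl |f x - f y|)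
    have a2 := abs_le.1 (le_refl |f y - f z|)
    by_cases h1 : SameMem D x y <;> by_cases h2 : SameMem D y z
    · rw [if_pos h1, if_pos h2, if_pos (h1.trans hd h2)]
      exact abs_sub_le _ _ _
    · have h3 : ¬ SameMem D x z := fun h3 => h2 (h1.symm.trans hd h3)
      rw [if_pos h1, if_neg h2, if_neg h3]
      linarith
    · have h3 : ¬ SameMem D x z := fun h3 => h1 (h3.trans hd h2.symm)
      rw [if_neg h1, if_pos h2, if_neg h3]
      linarith
    · rw [if_neg h1, if_neg h2]
      split_ifs
      · rw [abs_le]
        constructor <;> linarith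
      · linarith

end pseudo

variable {X : Type u}

/-- Metrization: a normal space with a sigma-disjoint base in which closed sets are `Gδ`. -/
theorem metrizable_of_perfect [t : TopologicalSpace X] [T4Space X]
    (hB : HasSigmaDisjointBase X) (hG : ∀ F : Set X, IsClosed F → IsGδ F) :
    MetrizableSpace X := by
  classical
  obtain ⟨B, hBb, hBd⟩ := hB
  have hBo : ∀ n, ∀ W ∈ B n, IsOpen W := fun n W hW => hBb.isOpen (mem_iUnion.2 ⟨n, hW⟩)
  have hOo : ∀ n, IsOpen (⋃₀ B n) := fun n => isOpen_sUnion (hBo n)
  -- closed pieces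
  have hC : ∀ n, ∃ C : ℕ → Set X, (∀ m, IsClosed (C m)) ∧ ⋃₀ B n = ⋃ m, C m := by
    intro n
    obtain ⟨V, hV, hVe⟩ := (hG _ (hOo n).isClosed_compl).eq_iInter_nat
    refine ⟨fun m => (V m)ᶜ, fun m => (hV m).isClosed_compl, ?_⟩
    rw [← compl_iInter, ← hVe, compl_compl]
  choose C hCc hCe using hC
  -- Urysohn functions
  have hf : ∀ n m, ∃ f : C(X, ℝ), EqOn f 0 (⋃₀ B n)ᶜ ∧ EqOn f 1 (C n m) ∧
      ∀ x, f x ∈ Icc (0 : ℝ) 1 := by
    intro n m
    refine exists_continuous_zero_one_of_isClosed (hOo n).isClosed_compl (hCc n m) ?_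
    rw [Set.disjoint_left]
    intro x hx hx'
    apply hx
    rw [hCe n]
    exact mem_iUnion.2 ⟨m, hx'⟩
  choose f hf0 hf1 hf2 using hf
  let P : ℕ × ℕ → PseudoMetricSpace X := fun p =>
    hmetric (f := f p.1 p.2) (hBd p.1) (fun x => (hf2 p.1 p.2 x).1)
      (fun x hx => by simpa using hf0 p.1 p.2 hx)
  let U : UniformSpace X := ⨅ p, (P p).toUniformSpace
  have hU : U.toTopologicalSpace = t := by
    rw [UniformSpace.toTopologicalSpace_iInf]
    apply le_antisymm
    · -- the new topology is finer
      rw [hBb.eq_generateFrom]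
      apply le_generateFrom
      intro W hW
      obtain ⟨n, hn⟩ := mem_iUnion.1 hW
      rw [@isOpen_iff_mem_nhds]
      intro x hx
      have hxO : x ∈ ⋃ m, C n m := by
        rw [← hCe n]
        exact ⟨W, hn, hx⟩
      obtain ⟨m, hm⟩ := mem_iUnion.1 hxO
      have h1 : (⨅ p, (P p).toUniformSpace.toTopologicalSpace) ≤
          (P (n, m)).toUniformSpace.toTopologicalSpace := iInf_le _ (n, m)
      apply nhds_mono h1
      have h2 : @Metric.ball X (P (n, m)) x 1 ⊆ W := by
        intro y hy
        have hy' : hdist (B n) (f n m) y x < 1 := hy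
        unfold hdist at hy'
        split_ifs at hy' with hs
        · obtain ⟨W', hW', hyW, hxW⟩ := hs
          have : W' = W := by
            by_contra hne
            exact Set.disjoint_left.1 (hBd n hW' hn hne) hxW hx
          subst this
          exact hyW
        · have h3 := hf1 n m hm
          have h4 := (hf2 n m y).1
          simp only [Pi.one_apply] at h3
          rw [h3] at hy'
          linarith
      refine Filter.mem_of_superset ?_ h2
      exact @Metric.ball_mem_nhds X (P (n, m)) x 1 one_pos
    · -- the old topology is finer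
      refine le_iInf fun p => ?_
      refine le_of_nhds_le_nhds fun x => ?_
      intro V hV
      obtain ⟨ε, hε, hV⟩ := (@Metric.mem_nhds_iff X (P p) x V).1 hV
      refine Filter.mem_of_superset ?_ hV
      have hcont : ContinuousAt (f p.1 p.2) x := (f p.1 p.2).continuous.continuousAt
      have hball : ∀ᶠ y in 𝓝 x, |f p.1 p.2 y - f p.1 p.2 x| < ε := by
        have := Metric.continuousAt_iff'.1 hcont ε hε
        simpa [Real.dist_eq] using this
      by_cases hx : x ∈ ⋃₀ B p.1
      · obtain ⟨W, hW, hxW⟩ := hx
        have hWn : ∀ᶠ y in 𝓝 x, y ∈ W := (hBo p.1 W hW).mem_nhds hxW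
        filter_upwards [hball, hWn] with y hy hyW
        have h1 : SameMem (B p.1) y x := ⟨W, hW, hyW, hxW⟩
        change hdist (B p.1) (f p.1 p.2) y x < ε
        unfold hdist
        rw [if_pos h1]
        exact hy
      · have h0 : f p.1 p.2 x = 0 := by simpa using hf0 p.1 p.2 hx
        filter_upwards [hball] with y hy
        have h1 : ¬ SameMem (B p.1) y x := by
          rintro ⟨W, hW, -, hxW⟩
          exact hx ⟨W, hW, hxW⟩
        change hdist (B p.1) (f p.1 p.2) y x < ε
        unfold hdist
        rw [if_neg h1, h0, add_zero]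
        rw [h0, sub_zero] at hy
        exact (le_abs_self _).trans_lt hy
  have hcg : @IsCountablyGenerated (X × X) (@uniformity X U) := by
    have : @uniformity X U = ⨅ p, @uniformity X (P p).toUniformSpace := iInf_uniformity
    rw [this]
    exact Filter.iInf.isCountablyGenerated _
  have hm : @PseudoMetrizableSpace X U.toTopologicalSpace :=
    @UniformSpace.pseudoMetrizableSpace X U hcg
  rw [hU] at hm
  infer_instance

end Pool.Agent.MP94c317
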