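import Pool.Agent.Work.MP_94c317_gt.Key

set_option autoImplicit false
open Set Topology TopologicalSpace
open Cardinal hiding univ
open Ordinal hiding univ

namespace Pool.Agent.MP94c317

universe u

variable {X : Type u}

/-- the decreasing sequence of remainders -/
noncomputable def Rseq (G : Set X → Set X) : Ordinal.{0} → Set X :=
  WellFounded.fix Ordinal.lt_wf
    (fun ξ ih => (⋃ η : {η : Ordinal.{0} // η < ξ}, G (ih η.1 η.2))ᶜ)

theorem Rseq_eq (G : Set X → Set X) (ξ : Ordinal.{0}) :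
    Rseq G ξ = (⋃ η : {η : Ordinal.{0} // η < ξ}, G (Rseq G η.1))ᶜ := by
  unfold Rseq
  rw [WellFounded.fix_eq]

theorem mem_Rseq (G : Set X → Set X) (ξ : Ordinal.{0}) (x : X) :
    x ∈ Rseq G ξ ↔ ∀ η < ξ, x ∉ G (Rseq G η) := by
  rw [Rseq_eq]
  simp only [mem_compl_iff, mem_iUnion, not_exists, Subtype.forall]

theorem Rseq_anti (G : Set X → Set X) {η ξ : Ordinal.{0}} (h : η ≤ ξ) :
    Rseq G ξ ⊆ Rseq G η := by
  intro x hx
  rw [mem_Rseq] at hx ⊢
  exact fun ζ hζ => hx ζ (hζ.trans_le h)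

variable [TopologicalSpace X]

theorem Rseq_closed (G : Set X → Set X) (hG : ∀ R, IsOpen (G R)) (ξ : Ordinal.{0}) :
    IsClosed (Rseq G ξ) := by
  rw [Rseq_eq]
  exact (isOpen_iUnion fun _ => hG _).isClosed_compl

theorem rank_main [NormalSpace X] (O : Set (Set X)) {Z : Type u} (r : Z → Z → Prop)
    (wf : WellFounded r) (Y : Z → Set X) (hY : ⋃ z, Y z = univ)
    (hL : ∀ z, IsLindelof (Y z))
    (V : Z × ℕ → Set X) (hVo : ∀ p, IsOpen (V p)) (hVr : ∀ p, ∃ U ∈ O, V p ⊆ U)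
    (c : Z × ℕ → ℕ) (hc : ∀ p q, c p = c q → p ≠ q → Disjoint (V p) (V q))
    (hcov : ∀ z, Y z ⊆ ⋃ i, V (z, i))
    (hfin : ∀ z, ∀ x ∈ Y z, {i | x ∈ V (z, i)}.Finite)
    (hold : ∀ z, ∀ x ∈ Y z, ∀ p : Z × ℕ, x ∈ V p → p.1 = z ∨ r p.1 z) :
    ∃ F : Set (Set (Set X)), #F ≤ ℵ₁ ∧ (∀ D ∈ F, DiscreteFam D ∧ Refines D O) ∧
      ⋃₀ (⋃₀ F) = univ := by
  classical
  let N : Set X → Set (Z × ℕ) := fun R => {p | (V p ∩ Y p.1 ∩ R).Nonempty}
  have hex : ∀ R : Set X, ∃ G, Good O G ∧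
      (IsClosed R → ∀ x ∈ R, {p | p ∈ N R ∧ x ∈ V p}.Finite → x ∈ G) := by
    intro R
    by_cases hR : IsClosed R
    swap
    · exact ⟨∅, good_empty O, fun h => absurd h hR⟩
    have hRN : R ⊆ ⋃ p ∈ N R, V p := by
      intro x hx
      obtain ⟨z, hz⟩ : ∃ z, x ∈ Y z := by
        have : x ∈ ⋃ z, Y z := by rw [hY]; trivial
        simpa using this
      obtain ⟨i, hi⟩ : ∃ i, x ∈ V (z, i) := by simpa using hcov z hz
      exact mem_biUnion (show (z, i) ∈ N R from ⟨x, ⟨hi, hz⟩, hx⟩) hi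
    obtain ⟨G, hG, hGc⟩ := key O c V hVo
      (fun p q hpq hne => hc p q hpq (fun h => hne (by rw [h]))) hVr (N R) R hR hRN
    exact ⟨G, hG, fun _ => hGc⟩
  choose G hG hGc using hex
  have hGo : ∀ R, IsOpen (G R) := fun R => (hG R).isOpen
  have hRc : ∀ ξ, IsClosed (Rseq G ξ) := Rseq_closed G hGo
  -- every block dies at a countable stage
  have hdie : ∀ z, ∃ η < ω₁, ∀ x ∈ Y z, x ∉ Rseq G η := by
    intro z
    induction z using wf.induction with
    | _ z ih =>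
      have hpt : ∀ x ∈ Y z, ∃ η < ω₁, x ∉ Rseq G η := by
        intro x hx
        let T : Set (Z × ℕ) := {p | x ∈ V p}
        have hT : T.Countable := by
          refine countable_of_injective_of_countable_image (f := c) ?_ (to_countable _)
          intro p hp q hq hpq
          by_contra hne
          exact Set.disjoint_left.1 (hc p q hpq hne) hp hq
        have hex' : ∀ p : T, ∃ η : Ordinal.{0}, η < ω₁ ∧
            (p.1.1 ≠ z → ∀ y ∈ Y p.1.1, y ∉ Rseq G η) := by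
          intro p
          by_cases hpz : p.1.1 = z
          · exact ⟨0, omega_pos 1, fun h => absurd hpz h⟩
          · rcases hold z x hx p.1 p.2 with h | h
            · exact absurd h hpz
            · obtain ⟨η, h1, h2⟩ := ih _ h
              exact ⟨η, h1, fun _ => h2⟩
        choose f hf1 hf2 using hex'
        have : Countable T := hT.to_subtype
        have hsup : ⨆ p, f p < ω₁ := Ordinal.iSup_lt_omega_one hf1
        refine ⟨Order.succ (⨆ p, f p), ?_, ?_⟩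
        · exact (isSuccLimit_omega 1).succ_lt hsup
        · intro hx'
          rw [mem_Rseq] at hx'
          refine hx' (⨆ p, f p) (Order.lt_succ _) ?_
          refine hGc _ (hRc _) x ?_ ?_
          · rw [mem_Rseq]
            exact fun ζ hζ => hx' ζ (hζ.trans (Order.lt_succ _))
          · refine ((hfin z x hx).image (fun i => (z, i))).subset ?_
            rintro p ⟨hpN, hxp⟩
            by_cases hpz : p.1 = z
            · refine ⟨p.2, ?_, ?_⟩
              · show x ∈ V (z, p.2)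
                rw [← hpz]; exact hxp
              · rw [← hpz]
            · exfalso
              obtain ⟨y, ⟨-, hy⟩, hyR⟩ := hpN
              have hle : f ⟨p, hxp⟩ ≤ ⨆ p, f p := Ordinal.le_iSup f ⟨p, hxp⟩
              exact hf2 ⟨p, hxp⟩ hpz y hy (Rseq_anti G hle hyR)
      obtain ⟨t, htc, ht⟩ := (hL z).elim_countable_subcover
        (fun η : {η : Ordinal.{0} // η < ω₁} => (Rseq G η.1)ᶜ)
        (fun η => (hRc η.1).isOpen_compl)
        (by
          intro x hx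
          obtain ⟨η, h1, h2⟩ := hpt x hx
          exact mem_iUnion.2 ⟨⟨η, h1⟩, h2⟩)
      have : Countable t := htc.to_subtype
      refine ⟨⨆ η : t, η.1.1, Ordinal.iSup_lt_omega_one fun η => η.1.2, ?_⟩
      intro x hx hxR
      obtain ⟨η, hη, hxη⟩ : ∃ η ∈ t, x ∈ (Rseq G η.1)ᶜ := by simpa using ht hx
      exact hxη (Rseq_anti G (Ordinal.le_iSup (fun η : t => η.1.1) ⟨η, hη⟩) hxR)
  choose D hD hDr hGD using hG
  let φ : (Iio (ω₁ : Ordinal.{0})) × ℕ → Set (Set X) := fun q => D (Rseq G q.1.1) q.2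
  refine ⟨range φ, ?_, ?_, ?_⟩
  · have h1 := mk_range_le_lift (f := φ)
    have h2 : #((Iio (ω₁ : Ordinal.{0})) × ℕ) = ℵ₁ := by
      rw [mk_prod, Cardinal.mk_Iio_ordinal]
      simp
    rw [h2] at h1
    simpa using h1
  · rintro _ ⟨q, rfl⟩
    exact ⟨hD _ _, hDr _ _⟩
  · rw [eq_univ_iff_forall]
    intro x
    obtain ⟨z, hz⟩ : ∃ z, x ∈ Y z := by
      have : x ∈ ⋃ z, Y z := by rw [hY]; trivial
      simpa using this
    obtain ⟨η, h1, h2⟩ := hdie z
    have h3 := h2 x hz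
    rw [mem_Rseq] at h3
    push Not at h3
    obtain ⟨ζ, hζ, hxζ⟩ := h3
    rw [hGD] at hxζ
    obtain ⟨n, A, hA, hxA⟩ : ∃ n, ∃ A ∈ D (Rseq G ζ) n, x ∈ A := by simpa using hxζ
    exact ⟨A, ⟨_, ⟨(⟨ζ, hζ.trans h1⟩, n), rfl⟩, hA⟩, hxA⟩

end Pool.Agent.MP94c317
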