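import Pool.Agent.Work.MP_94c317_gt.Key

set_option autoImplicit false
open Set Topology TopologicalSpace Filter Cardinal

namespace Pool.Agent.MP94c317

universe u

/-- Every finite subfamily of `F` has an infinite intersection. -/
def SFIP (F : Set (Set ℕ)) : Prop :=
  ∀ G : Finset (Set ℕ), (∀ A ∈ G, A ∈ F) → {k | ∀ A ∈ G, k ∈ A}.Infinite

/-- Some infinite set is almost contained in every member of `F`. -/
def HasPseudoIntersection (F : Set (Set ℕ)) : Prop :=
  ∃ J : Set ℕ, J.Infinite ∧ ∀ A ∈ F, (J \ A).Finite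

/-- The pseudo-intersection number `𝔭`. -/
noncomputable def pseudoNumber : Cardinal.{0} :=
  sInf {κ | ∃ F : Set (Set ℕ), #F = κ ∧ SFIP F ∧ ¬ HasPseudoIntersection F}

theorem hasPseudoIntersection_of_lt {F : Set (Set ℕ)} (h : #F < pseudoNumber) (hF : SFIP F) :
    HasPseudoIntersection F := by
  by_contra hcon
  exact notMem_of_lt_csInf' h ⟨F, rfl, hF, hcon⟩

theorem pseudoNumber_le_continuum : pseudoNumber ≤ 𝔠 := by
  rcases Set.eq_empty_or_nonempty
    {κ : Cardinal.{0} | ∃ F : Set (Set ℕ), #F = κ ∧ SFIP F ∧ ¬ HasPseudoIntersection F} with h | h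
  · unfold pseudoNumber
    rw [h, Cardinal.sInf_empty]
    exact zero_le
  · obtain ⟨κ, hκ⟩ := h
    refine (csInf_le' hκ).trans ?_
    obtain ⟨F, rfl, -⟩ := hκ
    refine (mk_set_le F).trans ?_
    simp

/-- Combinatorial core (Solovay, Bell). If countably many sets `O i` separate the points of a
small set `C`, each subset of `C` is the limit of a sequence of sets that are finite unions of
finite intersections of the `O i`. -/
theorem exists_limit_seq {X : Type u} {ι : Type} [Countable ι] (O : ι → Set X) (C : Set X)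
    (hC : lift.{0} #C < lift.{u} pseudoNumber)
    (hsep : ∀ x ∈ C, ∀ y ∈ C, x ≠ y → ∃ i, x ∈ O i ∧ y ∉ O i) (A : Set X) :
    ∃ s : ℕ → Finset (Finset ι),
      (∀ x ∈ C, x ∈ A → ∀ᶠ k in atTop, ∃ G ∈ s k, ∀ i ∈ G, x ∈ O i) ∧
      (∀ x ∈ C, x ∉ A → ∀ᶠ k in atTop, ¬ ∃ G ∈ s k, ∀ i ∈ G, x ∈ O i) := by
  classical
  -- enumeration of codes
  let I := Finset (Finset ι) × ℕ
  have : Infinite I := Prod.infinite_of_right
  obtain ⟨e⟩ : Nonempty (ℕ ≃ I) := by
    have : Countable I := inferInstance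
    obtain ⟨d⟩ := nonempty_denumerable I
    exact ⟨(Denumerable.eqv I).symm⟩
  let Q : X → I → Prop := fun x p => ∃ G ∈ p.1, ∀ i ∈ G, x ∈ O i
  let P : C → Set ℕ := fun x => {k | (x : X) ∈ A ↔ Q x (e k)}
  have hcard : #(range P) < pseudoNumber := by
    have h1 := Cardinal.mk_range_le_lift (f := P)
    have h2 : lift.{u} #(range P) < lift.{u} pseudoNumber := lt_of_le_of_lt h1 hC
    exact lift_lt.1 h2
  have hS : SFIP (range P) := by
    intro G hG
    rcases isEmpty_or_nonempty C with hemp | hnon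
    · have : {k | ∀ A ∈ G, k ∈ A} = (univ : Set ℕ) := by
        ext k
        simp only [mem_ofPred_eq, mem_univ, iff_true]
        intro A hA
        obtain ⟨x, -⟩ := hG A hA
        exact hemp.elim x
      rw [this]
      exact infinite_univ
    -- representatives
    choose! r hr using fun (A : Set ℕ) (hA : A ∈ G) => (hG A hA)
    let T : Finset C := G.image r
    -- separating sets
    have hsep' : ∀ a y : C, a ≠ y → ∃ i, (a : X) ∈ O i ∧ (y : X) ∉ O i := fun a y hne =>
      hsep a a.2 y y.2 (fun h => hne (Subtype.ext h))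
    have hex : ∀ a y : C, ∃ g : Finset ι, (∀ i ∈ g, (a : X) ∈ O i) ∧
        (a ≠ y → ∃ i ∈ g, (y : X) ∉ O i) := by
      intro a y
      by_cases hne : a = y
      · exact ⟨∅, by simp, fun h => absurd hne h⟩
      · obtain ⟨i, hi, hi'⟩ := hsep' a y hne
        exact ⟨{i}, by simpa using hi, fun _ => ⟨i, by simp, hi'⟩⟩
    choose g hg1 hg2 using hex
    let H : Finset (Finset ι) :=
      (T.filter fun a : C => (a : X) ∈ A).image fun a : C =>
        (T.filter fun y : C => (y : X) ∉ A).biUnion fun y : C => g a y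
    have hH : ∀ x ∈ T, ((x : X) ∈ A ↔ ∃ G ∈ H, ∀ i ∈ G, (x : X) ∈ O i) := by
      intro x hx
      constructor
      · intro hxA
        refine ⟨_, Finset.mem_image_of_mem _ (Finset.mem_filter.2 ⟨hx, hxA⟩), ?_⟩
        intro i hi
        obtain ⟨y, -, hiy⟩ := Finset.mem_biUnion.1 hi
        exact hg1 x y i hiy
      · rintro ⟨G', hG', hall⟩
        obtain ⟨a, ha, rfl⟩ := Finset.mem_image.1 hG'
        by_contra hxA
        have haA := (Finset.mem_filter.1 ha).2
        have hne : a ≠ x := by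
          rintro rfl
          exact hxA haA
        obtain ⟨i, hi, hi'⟩ := hg2 a x hne
        exact hi' (hall i (Finset.mem_biUnion.2 ⟨x, Finset.mem_filter.2 ⟨hx, hxA⟩, hi⟩))
    have hinf : (range fun j : ℕ => e.symm (H, j)).Infinite := by
      apply Set.infinite_range_of_injective
      intro j j' h
      have := e.symm.injective h
      exact (Prod.ext_iff.1 this).2
    refine hinf.mono ?_
    rintro _ ⟨j, rfl⟩ A' hA'
    have h1 := hr A' hA'
    rw [← h1]
    change ((r A' : C) : X) ∈ A ↔ Q (r A') (e (e.symm (H, j)))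
    rw [e.apply_symm_apply]
    exact hH _ (Finset.mem_image_of_mem _ hA')
  obtain ⟨J, hJ, hJF⟩ := hasPseudoIntersection_of_lt hcard hS
  let m : ℕ → ℕ := Nat.nth (· ∈ J)
  have hm : ∀ k, m k ∈ J := fun k => Nat.nth_mem_of_infinite hJ k
  have hmi : Function.Injective m := Nat.nth_injective hJ
  have hev : ∀ x : C, ∀ᶠ k in atTop, ((x : X) ∈ A ↔ Q x (e (m k))) := by
    intro x
    have h1 := hJF (P x) ⟨x, rfl⟩
    have h2 : (m ⁻¹' (J \ P x)).Finite := h1.preimage hmi.injOn
    rw [← Nat.cofinite_eq_atTop]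
    have h3 : ∀ᶠ k in cofinite, k ∉ m ⁻¹' (J \ P x) := h2.eventually_cofinite_notMem
    filter_upwards [h3] with k hk
    by_contra hcon
    exact hk ⟨hm k, hcon⟩
  refine ⟨fun k => (e (m k)).1, ?_, ?_⟩
  · intro x hx hxA
    filter_upwards [hev ⟨x, hx⟩] with k hk
    exact hk.1 hxA
  · intro x hx hxA
    filter_upwards [hev ⟨x, hx⟩] with k hk
    exact fun h => hxA (hk.2 h)

end Pool.Agent.MP94c317
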